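import Pool.Agent.H.MP_913206_gt.C

/-!
No analytic o-bounded group admits a winning strategy of player I in the Open-Finite game.
-/

namespace Pool.Agent.Results.MP_b00c97_gt.NoAnalytic

open Pool.Agent.H.MP_913206_gt Topology

universe u v

/-- the group is o-bounded -/
def OBounded (G : Type u) [Group G] [TopologicalSpace G] : Prop :=
  ∀ U : ℕ → Set G, (∀ n, U n ∈ 𝓝 (1 : G)) →
    ∃ F : ℕ → Finset G, ∀ g : G, ∃ n, ∃ f ∈ F n, ∃ u ∈ U n, g = f * u

/-- `σ` is a winning strategy of player I: it turns the list of the earlier moves of player II into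
a neighbourhood of the identity, and no sequence of moves of player II covers the group -/
def WinsI {G : Type u} [Group G] [TopologicalSpace G] (σ : List (Finset G) → Set G) : Prop :=
  (∀ l, σ l ∈ 𝓝 (1 : G)) ∧ ∀ F : ℕ → Finset G,
    ¬∀ g : G, ∃ n, ∃ f ∈ F n, ∃ u ∈ σ ((List.range n).map F), g = f * u

theorem result (G : Type u) [Group G] [TopologicalSpace G] [IsTopologicalGroup G]
    [TopologicalSpace.MetrizableSpace G] (X : Type v) [MetricSpace X] [CompleteSpace X]
    [TopologicalSpace.SeparableSpace X] (ψ : X → G) (hψ : Continuous ψ)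
    (hs : Function.Surjective ψ) (hG : OBounded G) :
    ¬∃ σ : List (Finset G) → Set G, WinsI σ := by
  classical
  obtain ⟨B⟩ := exists_base (G := G)
  haveI : Nonempty X := by
    obtain ⟨x, -⟩ := hs 1
    exact ⟨x⟩
  haveI : SecondCountableTopology X := UniformSpace.secondCountable_of_separable X
  obtain ⟨p, hp, hp'⟩ := PolishSpace.exists_nat_nat_continuous_surjective X
  have hsb : SB B Set.univ := by
    refine sb_of_menger (ψ ∘ p) (hψ.comp hp) (hs.comp hp') fun V hV => ?_
    obtain ⟨F, hF⟩ := hG V fun n => (hV n).1.mem_nhds (hV n).2.1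
    refine ⟨F, fun g => ?_⟩
    obtain ⟨n, f, hf, u, hu, rfl⟩ := hF g
    exact ⟨n, f, hf, by simpa using hu⟩
  rintro ⟨σ, h1, h2⟩
  obtain ⟨C, hC, hcov⟩ := hsb
  choose E hE using hC
  choose l hl using fun L => B.sub _ (h1 L)
  let H : ℕ → List (Finset G) := fun n =>
    Nat.rec [] (fun k L => L ++ [E k (l L)]) n
  let F : ℕ → Finset G := fun n => E n (l (H n))
  have hH : ∀ n, (List.range n).map F = H n := by
    intro n
    induction n with
    | zero => rfl
    | succ n ih => rw [List.range_succ, List.map_append, ih]; rfl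
  refine h2 F fun g => ?_
  obtain ⟨k, hk⟩ := Set.mem_iUnion.1 (hcov (Set.mem_univ g))
  obtain ⟨f, hf, hm⟩ := hE k (l (H k)) g hk
  exact ⟨k, f, hf, f⁻¹ * g, by rw [hH]; exact hl _ hm, by simp⟩

end Pool.Agent.Results.MP_b00c97_gt.NoAnalytic
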